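import Pool.Agent.helper61.CSW.W.SpecW

/-!
# Project csw: (MP_70a088_an, class S, block W): WFG, the general theorem (helper8)
-/

set_option autoImplicit false

open Complex Metric Set Filter Topology MeasureTheory
open YPPS (fd fdd pre TT CV IsCyc rho Exact)
open MPS (BB)
open Pool.Agent.helper98.ILF (juliaSet fatouSet)

noncomputable section

open CSS (SE SV JJ)

namespace YW

/-- a repelling fixed point is not in an exceptional set. -/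
theorem WFG_notE {f : SE} {E : Set ℂ} (hE : AE f E) {p : ℂ} (hfix : f.eval p = p) (hrep : 1 < ‖fd f p‖) : p ∉ E := by
  intro hp
  obtain ⟨m, hm, -, hm2⟩ := hE.att p hp
  have h1 : HasDerivAt (fun w : ℂ => f.eval w) (fd f p) p := (f.dif p).hasDerivAt
  have h2 := HasDerivAt.iterate p h1 hfix m
  have h3 : mlt f m p = fd f p ^ m := h2.deriv
  rw [h3, norm_pow] at hm2
  have h4 : 1 ≤ ‖fd f p‖ ^ m := one_le_pow₀ hrep.le
  linarith

/-- a cycle of period at least two contains no fixed point. -/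
theorem WFG_ne {k : ℕ} [NeZero k] {f : SE} {b : ZMod k → ℂ} (hk : 2 ≤ k) (hb : IsCyc f b) {p : ℂ} (hfix : f.eval p = p) (i : ZMod k) :
    b i ≠ p := by
  intro h
  have h1 := hb.step i
  rw [h, hfix] at h1
  have h2 : b (i + 1) = b i := by rw [h, ← h1]
  have h3 := hb.inj h2
  have h4 : (1 : ZMod k) = 0 := by simpa using h3
  have : Fact (1 < k) := ⟨hk⟩
  exact one_ne_zero h4

/-- the coefficient at the auxiliary fixed point. -/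
theorem WFG_coef {a c₁ cp : ℂ} {η M : ℝ} (hη : 0 < η) (hle : η ≤ 1 - 1 / ‖a‖) (h : cp = c₁ * (1 / a - 1))
    (hM : ‖cp‖ ≤ M) : ‖c₁‖ ≤ M / η := by
  rw [le_div_iff₀ hη]
  have h1 : η ≤ ‖1 / a - 1‖ := by
    have h2 : ‖(1 : ℂ)‖ - ‖1 / a‖ ≤ ‖(1 : ℂ) - 1 / a‖ := norm_sub_norm_le _ _
    rw [norm_one, norm_div, norm_one, norm_sub_rev] at h2
    linarith
  calc ‖c₁‖ * η ≤ ‖c₁‖ * ‖1 / a - 1‖ := mul_le_mul_of_nonneg_left h1 (norm_nonneg _)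
    _ = ‖cp‖ := by rw [h, norm_mul]
    _ ≤ M := hM

/-- invisibility of the auxiliary part. -/
theorem WFG_inv {f : SE} (X : NP f) {c₁ c₂ bi z : ℂ} {ε R : ℝ} (hε : 0 < ε) (hR : 0 < R) (hR1 : R ≤ 1)
    (h1 : 2 * R / ε ≤ ‖bi - X.p₁‖) (h2 : 2 * R / ε ≤ ‖bi - X.p₂‖) (hc1 : ‖c₁‖ ≤ 1 / 2) (hc2 : ‖c₂‖ ≤ 1 / 2)
    (hz : z ∈ ball bi (R / ε)) : z ∉ ({X.p₁, X.p₂} : Set ℂ) ∧ R ^ 2 * ‖rr X c₁ c₂ z‖ ≤ ε := by
  have hRε : 0 < R / ε := by positivity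
  rw [mem_ball, dist_eq_norm] at hz
  have hd : ∀ p : ℂ, 2 * R / ε ≤ ‖bi - p‖ → R / ε ≤ ‖z - p‖ := by
    intro p hp
    have h3 : ‖bi - p‖ ≤ ‖z - bi‖ + ‖z - p‖ := by
      calc ‖bi - p‖ = ‖(z - p) - (z - bi)‖ := by ring_nf
        _ ≤ ‖z - p‖ + ‖z - bi‖ := norm_sub_le _ _
        _ = _ := add_comm _ _
    have h4 : 2 * R / ε = R / ε + R / ε := by ring
    linarith
  have e1 := hd _ h1
  have e2 := hd _ h2
  refine ⟨?_, ?_⟩
  · rintro (h | h)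
    · rw [h, sub_self, norm_zero] at e1; linarith
    · rw [mem_singleton_iff] at h
      rw [h, sub_self, norm_zero] at e2; linarith
  · have hb : ∀ (c p : ℂ), ‖c‖ ≤ 1 / 2 → R / ε ≤ ‖z - p‖ → ‖c / (z - p)‖ ≤ 1 / 2 * (ε / R) := by
      intro c p hc hp
      rw [norm_div]
      calc ‖c‖ / ‖z - p‖ ≤ (1 / 2) / (R / ε) := div_le_div₀ (by norm_num) hc hRε hp
        _ = 1 / 2 * (ε / R) := by field_simp
    have h5 : ‖rr X c₁ c₂ z‖ ≤ ε / R := by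
      unfold rr
      refine (norm_add_le _ _).trans ?_
      have := hb c₁ X.p₁ hc1 e1
      have := hb c₂ X.p₂ hc2 e2
      linarith
    calc R ^ 2 * ‖rr X c₁ c₂ z‖ ≤ R ^ 2 * (ε / R) := mul_le_mul_of_nonneg_left h5 (by positivity)
      _ = R * ε := by field_simp
      _ ≤ ε := mul_le_of_le_one_left hε.le hR1

/-- `rr` as a sum over a finite set. -/
theorem WFG_rr {f : SE} (X : NP f) (c₁ c₂ : ℂ) : ∃ (Q : Finset ℂ) (c : ℂ → ℂ), ({X.p₁, X.p₂} : Set ℂ) = (↑Q : Set ℂ) ∧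
    ∀ z, rr X c₁ c₂ z = ∑ p ∈ Q, c p / (z - p) := by
  classical
  refine ⟨{X.p₁, X.p₂}, fun p => if p = X.p₁ then c₁ else c₂, by simp, ?_⟩
  intro z
  rw [Finset.sum_pair X.ne]
  simp [rr, X.ne.symm]

/-- WFG: the general theorem. -/
theorem WFG (hNRC : NRC_stmt) (hSQS : SQS_stmt) (hECE : ECE_stmt) (hERC : ERC_stmt) (hINE : INE_stmt) (hENS : ENS_stmt)
    (hSBS : SBS_stmt) (hIVS : IVS_stmt) : WFG_stmt := by
  intro hXM f X E n μ w hS hE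
  by_contra hW
  have hpi := Real.pi_pos
  have hp1E : X.p₁ ∉ E := WFG_notE hE X.fix1 X.rep1
  have hp2E : X.p₂ ∉ E := WFG_notE hE X.fix2 X.rep2
  have hrep := hNRC f X E n μ w hS hE
  obtain ⟨C, hC, hSB⟩ := hSBS f X E n μ w hS
  have hC' : 0 < 2 * Real.pi + 6 * Real.pi * C := by positivity
  obtain ⟨ε, hε, hX⟩ := hXM f.natDegree (2 * Real.pi + 6 * Real.pi * C) f.two_le_natDegree hC'
  obtain ⟨η, hη, hη1, hη2⟩ : ∃ η : ℝ, 0 < η ∧ η ≤ 1 - 1 / ‖fd f X.p₁‖ ∧ η ≤ 1 - 1 / ‖fd f X.p₂‖ := by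
    have h1 : 1 / ‖fd f X.p₁‖ < 1 := by
      rw [div_lt_one (by linarith [X.rep1])]; exact X.rep1
    have h2 : 1 / ‖fd f X.p₂‖ < 1 := by
      rw [div_lt_one (by linarith [X.rep2])]; exact X.rep2
    exact ⟨min (1 - 1 / ‖fd f X.p₁‖) (1 - 1 / ‖fd f X.p₂‖), lt_min (by linarith) (by linarith), min_le_left _ _, min_le_right _ _⟩
  obtain ⟨k₀, hk₀⟩ := hIVS f X ε 1 hε one_pos
  obtain ⟨ε₂, hε₂, hε₂ε, hε₂1, hε₂η⟩ : ∃ ε₂ : ℝ, 0 < ε₂ ∧ ε₂ ≤ ε ∧ ε₂ ≤ 1 ∧ C * (2 * Real.pi * ε₂) / η ≤ 1 / 2 := by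
    refine ⟨min (min ε 1) (η / (4 * Real.pi * C)), by positivity, (min_le_left _ _).trans (min_le_left _ _),
      (min_le_left _ _).trans (min_le_right _ _), ?_⟩
    have h1 : min (min ε 1) (η / (4 * Real.pi * C)) ≤ η / (4 * Real.pi * C) := min_le_right _ _
    rw [div_le_iff₀ hη]
    rw [le_div_iff₀ (by positivity)] at h1
    nlinarith
  obtain ⟨k, _, b, hk, hcyc, hbE, hρ1, hρ2⟩ := hSQS f E hE hrep hW (max k₀ 2) ε₂ hε₂
  have hkk : k₀ ≤ k := (le_max_left _ _).trans hk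
  have hk2 : 2 ≤ k := (le_max_right _ _).trans hk
  have hL0 : 0 < Real.log ‖rho f b‖ := Real.log_pos hρ1
  have hL1 : Real.log ‖rho f b‖ ≤ ε₂ := by
    have := Real.log_le_sub_one_of_pos (show 0 < ‖rho f b‖ by linarith)
    linarith
  have hb1 : ∀ i, b i ≠ X.p₁ := fun i => WFG_ne hk2 hcyc X.fix1 i
  have hb2 : ∀ i, b i ≠ X.p₂ := fun i => WFG_ne hk2 hcyc X.fix2 i
  have hρne : rho f b ≠ 1 := by
    intro h
    rw [h, norm_one] at hρ1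
    exact lt_irrefl _ hρ1
  obtain ⟨g, c₁, c₂, hCQ⟩ := hECE f X k b hcyc hb1 hb2 hρne
  obtain ⟨c, hRC⟩ := hERC f X k b g c₁ c₂ hCQ
  have hint : ∀ i, ‖∫ z : ℂ, μ i z * RS (ES f X) c z‖ ≤ 2 * Real.pi * Real.log ‖rho f b‖ := by
    intro i
    have h1 := (hINE f X E (μ i) (w i) (hS.fm i) hp1E hp2E k b g c₁ c₂ c hCQ hRC hbE).1
    rwa [abs_of_pos hL0] at h1
  obtain ⟨hI, hce⟩ := hSB c (2 * Real.pi * Real.log ‖rho f b‖) hRC.mz (by positivity) hint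
  have hmem1 : X.p₁ ∈ ES f X := by simp [ES]
  have hmem2 : X.p₂ ∈ ES f X := by simp [ES]
  have hMε : C * (2 * Real.pi * Real.log ‖rho f b‖) ≤ C * (2 * Real.pi * ε₂) := by gcongr
  have hc1 : ‖c₁‖ ≤ 1 / 2 := by
    refine (WFG_coef hη hη1 hRC.h1 ((hce _ hmem1).trans hMε)).trans hε₂η
  have hc2 : ‖c₂‖ ≤ 1 / 2 := by
    refine (WFG_coef hη hη2 hRC.h2 ((hce _ hmem2).trans hMε)).trans hε₂η
  have hEng := (hENS f X k b g c₁ c₂ c hCQ hRC).2.2 ((2 * Real.pi + 6 * Real.pi * C) * Real.log ‖rho f b‖) 1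
    (by positivity) (by nlinarith)
  refine hX k f b g (rr X c₁ c₂) {X.p₁, X.p₂} 1 hk2 rfl hcyc hCQ.ex hρ1 (hL1.trans hε₂ε) ?_ ?_ (WFG_rr X c₁ c₂) hEng ?_
  · intro i hi
    rcases hi with h | h
    · exact hb1 i h
    · exact hb2 i h
  · intro p hp
    rcases hp with h | h
    · rw [h]; exact X.fix1
    · rw [mem_singleton_iff] at h
      rw [h]; exact X.fix2
  · intro i R hR hder hnear z hz
    obtain ⟨h1, h2, h3⟩ := hk₀ k b hkk hcyc hρ1 (by linarith) hb1 hb2 i R hR hder hnear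
    obtain ⟨h4, h5⟩ := WFG_inv X hε hR h1 h2 h3 hc1 hc2 hz
    exact ⟨h4, h5, trivial⟩

end YW
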